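import Pool.Agent.Helper96.RecurrenceDefs
import Pool.Agent.STC.Final
import Pool.Agent.STC.Count

/-!
# The conjecture for the groups of locally constant functions on the Cantor set

Let `G` be a countable non-amenable group and `C(K, G) = LocallyConstant (ℕ → Bool) G` the countable
group of all locally constant functions from the Cantor set `K = ℕ → Bool` to `G` (pointwise
multiplication), i.e. the direct limit of `G, G², G⁴, …` under the diagonal maps. Every countable
group which contains a copy of `C(K, G)` contains a set of measurable recurrence which is not a set
of topological recurrence; it can be taken to be the set of differences of an infinite sequence.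
-/

set_option autoImplicit false

open Helper96.Recurrence

namespace Pool.Agent.Results.MP_290264_an.StableConjecture

universe u v

/-- The set of differences `(a w)⁻¹ * a v`, `v ≠ w`, of the sequence `a`. -/
def Differences {H : Type u} [Group H] (a : ℕ → H) : Set H :=
  {r | ∃ v w, v ≠ w ∧ r = (a w)⁻¹ * a v}

/-- **The conjecture holds for `C(K, G)` and its countable overgroups, `G` countable and
non-amenable.** -/
theorem result (G : Type u) [Group G] [Countable G] (hG : ¬ IsAmenable G) :
    Countable (LocallyConstant (ℕ → Bool) G) ∧
    (∃ R : Set (LocallyConstant (ℕ → Bool) G),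
      IsMeasurablyRecurrent.{u, v} (LocallyConstant (ℕ → Bool) G) R ∧
      ¬ IsTopologicallyRecurrent.{u, u} (LocallyConstant (ℕ → Bool) G) R) ∧
    ∀ (H : Type u) [Group H] [Countable H] (φ : LocallyConstant (ℕ → Bool) G →* H),
      Function.Injective φ →
      ∃ a : ℕ → H, Function.Injective a ∧ IsMeasurablyRecurrent.{u, v} H (Differences a) ∧
        ¬ IsTopologicallyRecurrent.{u, u} H (Differences a) ∧
        ¬ IsTopologicallyRecurrentHausdorff.{u, u} H (Differences a) := by
  have hc := Pool.Agent.STC.countable_locallyConstant G
  refine ⟨hc, ?_, fun H _ _ φ hφ => Pool.Agent.STC.final_seq hG φ hφ⟩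
  obtain ⟨R, h1, h2, -⟩ := Pool.Agent.STC.final.{u, v} hG
    (MonoidHom.id (LocallyConstant (ℕ → Bool) G)) Function.injective_id
  exact ⟨R, h1, h2⟩

end Pool.Agent.Results.MP_290264_an.StableConjecture
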