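import Pool.Agent.Helper96.RecurrenceDefs
import Pool.Agent.GSR.Cor
import Pool.Agent.GSR.GroupMain
import Pool.Agent.GSR.Expand
import Pool.Agent.GSR.NotAmen

/-!
# A finitely generated non-amenable group in which light recurrent sets are topologically recurrent

The group is a Golod-Shafarevich group over the field with 257 elements, generated by sixteen
elements any two of which generate a Heisenberg group (this gives a spectral gap, hence
non-amenability); the remaining relations make every finite set of small weight generate a finite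
subgroup.
-/

set_option autoImplicit false

open Helper96.Recurrence GSR

namespace Pool.Agent.Results.MP_290264_an.BoundedRecurrence

universe v w

/-- There are a finitely generated non-amenable group `G` and finite index normal subgroups
`D 0 ≥ D 1 ≥ ...` with trivial intersection such that every set which is lightly recurrent (in
particular: every measurably recurrent set of finite weight, every boundedly recurrent set, and
every set containing the differences of arbitrarily large finite sets) is a set of topological
recurrence. -/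
theorem result :
    ∃ (G : Type) (_ : Group G) (D : ℕ → Subgroup G),
      Group.FG G ∧ ¬ IsAmenable G ∧
      Antitone D ∧ (∀ s, (D s).Normal) ∧ (∀ s, (D s).FiniteIndex) ∧
      (∀ s, (D s).index ≤ 257 ^ 16 ^ s) ∧ (⨅ s, D s) = ⊥ ∧
      (∀ R : Set G, LightlyRecurrent.{v} D (1 / 8) R →
        IsTopologicallyRecurrent.{0, w} G R ∧ IsTopologicallyRecurrentHausdorff.{0, w} G R) ∧
      (∀ R : Set G, IsMeasurablyRecurrent.{0, v} G R →
        (∃ s : G → ℕ, (∀ x ∈ R, x ∈ D (s x)) ∧ Summable fun x : R => (1 / 8 : ℝ) ^ s x) →
        IsTopologicallyRecurrent.{0, w} G R ∧ IsTopologicallyRecurrentHausdorff.{0, w} G R) ∧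
      (∀ R : Set G, BoundedlyRecurrent.{v} G R →
        IsTopologicallyRecurrent.{0, w} G R ∧ IsTopologicallyRecurrentHausdorff.{0, w} G R) ∧
      (∀ R : Set G, (∀ k : ℕ, ∃ E : Finset G, k ≤ E.card ∧
          ∀ a ∈ E, ∀ b ∈ E, a ≠ b → a⁻¹ * b ∈ R) →
        IsTopologicallyRecurrent.{0, w} G R ∧ IsTopologicallyRecurrentHausdorff.{0, w} G R) := by
  obtain ⟨G, hGroup, g, D, hgen, hinf, hg, hz, hzg, _, hanti, hnorm, hfi, hidx, hres, hfin⟩ :=
    exists_group
  have hL : LightFinite G D (1 / 8) :=
    ⟨by norm_num, by norm_num, hanti, hnorm, hfi, hres, hfin⟩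
  have hfg : Group.FG G := by
    rw [Group.fg_iff]
    exact ⟨Set.range g, hgen, Set.finite_range g⟩
  have hcount : Countable G := by
    have h1 : Countable (FreeGroup (Fin 16)) :=
      Function.Surjective.countable
        (Quot.mk_surjective : Function.Surjective (Quot.mk (@FreeGroup.Red.Step (Fin 16))))
    exact Function.Surjective.countable
      (FreeGroup.lift_surjective_iff_closure_range_eq_top.2 hgen)
  obtain ⟨E, hE⟩ := expander (p := 257) (d := 16) (by norm_num) (by
    have h1 : Real.sqrt ((15 : ℝ) ^ 2) < Real.sqrt ((257 : ℕ) : ℝ) :=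
      Real.sqrt_lt_sqrt (by positivity) (by norm_num)
    rw [Real.sqrt_sq (by norm_num)] at h1
    norm_num at h1 ⊢
    linarith) g hgen hg hz hzg
  refine ⟨G, hGroup, D, hfg, not_isAmenable_of_doubling E hE, hanti, hnorm, hfi, hidx, ?_, ?_, ?_,
    ?_, ?_⟩
  · rw [eq_bot_iff]
    intro x hx
    rw [Subgroup.mem_iInf] at hx
    exact Subgroup.mem_bot.2 (hres x hx)
  · intro R hR
    exact ⟨hL.isTopologicallyRecurrent hR, hL.isTopologicallyRecurrentHausdorff hR⟩
  · rintro R hR ⟨s, hs, hsum⟩
    have h1 := hL.of_summable hR s hs hsum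
    exact ⟨hL.isTopologicallyRecurrent h1, hL.isTopologicallyRecurrentHausdorff h1⟩
  · intro R hR
    have h1 := hL.of_bounded hR
    exact ⟨hL.isTopologicallyRecurrent h1, hL.isTopologicallyRecurrentHausdorff h1⟩
  · intro R hR
    have h1 := hL.of_bounded (bounded_of_differences.{v} hR)
    exact ⟨hL.isTopologicallyRecurrent h1, hL.isTopologicallyRecurrentHausdorff h1⟩

end Pool.Agent.Results.MP_290264_an.BoundedRecurrence
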