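import Pool.Agent.Helper96.RecurrenceDefs
import Pool.Agent.Helper96.RecurrenceFree

/-!
# Groups with a non-abelian free subgroup

If `G` contains a free group of rank two, the positive powers of a free generator form a set of
measurable recurrence which is not a set of topological recurrence.
-/

open Helper96.Recurrence FreeGroup

namespace Pool.Agent.Results.MP_290264_an.FreeSubgroup

universe u v

/-- **The conjecture for groups containing a free group of rank two.** -/
theorem result (G : Type u) [Group G] (φ : FreeGroup (Fin 2) →* G)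
    (hφ : Function.Injective φ) :
    IsMeasurablyRecurrent.{u, v} G {g | ∃ n : ℕ, 1 ≤ n ∧ g = φ (of 1) ^ n} ∧
    ¬ IsTopologicallyRecurrentHausdorff.{u, u} G {g | ∃ n : ℕ, 1 ≤ n ∧ g = φ (of 1) ^ n} ∧
    (Countable G →
      ¬ IsTopologicallyRecurrent.{u, u} G {g | ∃ n : ℕ, 1 ≤ n ∧ g = φ (of 1) ^ n}) := by
  obtain ⟨S, F, hF, hR⟩ := criterion_of_free φ hφ
  refine ⟨isMeasurablyRecurrent_powers (φ (of 1)) (pow_ne_one_of_injective φ hφ), ?_, ?_⟩
  · exact not_topologicallyRecurrentHausdorff _ S F hF hR
  · intro _
    exact not_topologicallyRecurrent _ S F hF hR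

end Pool.Agent.Results.MP_290264_an.FreeSubgroup
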