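import Pool.Agent.Helper96.RecurrenceDefs
import Pool.Agent.Helper96.RecurrenceSL2

/-!
# Measurable recurrence implies topological recurrence in some non-amenable discrete group

The group is `SL₂(K)` for a field `K` of characteristic zero with more than continuum many
elements.  It is not amenable, and it acts trivially on every compact metric space, so that every
set containing an element other than the identity is a set of topological recurrence in the sense
of the problem (phase spaces being compact metric).
-/

open Helper96.Recurrence MatrixGroups

namespace Pool.Agent.Results.MP_290264_an.UncountableDisproof

universe u v

/-- **The negated form of the question holds for arbitrary discrete groups and compact metric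
phase spaces.** -/
theorem result :
    ∃ (G : Type) (_ : Group G), ¬ IsAmenable G ∧
      ∀ R : Set G, IsMeasurablyRecurrent.{0, u} G R → IsTopologicallyRecurrent.{0, v} G R := by
  obtain ⟨K, _, _, hK⟩ := exists_large_field
  refine ⟨SL(2, K), inferInstance, not_isAmenable_SL2 K, ?_⟩
  intro R hR
  exact isTopologicallyRecurrent_SL2 two_ne_zero (no_injection_of_continuum_lt hK) R
    (exists_ne_one_of_isMeasurablyRecurrent R hR)

end Pool.Agent.Results.MP_290264_an.UncountableDisproof
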